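import Pool.Agent.Q168.SQ.Sum

/-!
# MP_18219f_mp, Q1: the operational squeezing measure `G` is additive under direct sums

The phase space of `n` modes is `ℝ^(2n)`, with coordinates indexed by `Fin n × Fin 2` in the order
`(Q₁, P₁, …, Qₙ, Pₙ)`: the index `(i, 0)` is the position and `(i, 1)` the momentum of mode `i`.
-/

set_option autoImplicit false

namespace Pool.Agent.Results.MP_18219f_mp.Additivity

open Matrix
open scoped ComplexOrder

/-- indices of the phase space coordinates of `n` modes -/
abbrev Idx (n : ℕ) : Type := Fin n × Fin 2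

/-- the symplectic form `σ_n`, the direct sum of `n` blocks `[[0, 1], [-1, 0]]` -/
def sigma (n : ℕ) : Matrix (Idx n) (Idx n) ℝ :=
  fun a b => if a.1 = b.1 then (!![0, 1; -1, 0] : Matrix (Fin 2) (Fin 2) ℝ) a.2 b.2 else 0

/-- membership in the real symplectic group `Sp(2n)`: `Sᵀ σ_n S = σ_n` -/
def IsSymplectic {n : ℕ} (S : Matrix (Idx n) (Idx n) ℝ) : Prop := Sᵀ * sigma n * S = sigma n

/-- covariance matrices: real symmetric `γ` such that the complex Hermitian matrix `γ - i σ_n` is
positive semidefinite -/
def IsCovariance {n : ℕ} (γ : Matrix (Idx n) (Idx n) ℝ) : Prop :=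
  γᵀ = γ ∧ (γ.map (fun x : ℝ => (x : ℂ)) -
    Complex.I • (sigma n).map (fun x : ℝ => (x : ℂ))).PosSemidef

/-- the numbers over which the infimum in the definition of `G` is taken: `∑_{i=1}^n log s_i(S)`, where
`S ∈ Sp(2n)`, `γ ≥ Sᵀ S`, and `s_1(S) ≥ s_2(S) ≥ …` are the singular values of `S` (those of the
linear operator of the Euclidean space `ℝ^(2n)` with matrix `S`; Mathlib numbers them from `0`) -/
def costs {n : ℕ} (γ : Matrix (Idx n) (Idx n) ℝ) : Set ℝ :=
  {x : ℝ | ∃ S : Matrix (Idx n) (Idx n) ℝ, IsSymplectic S ∧ (γ - Sᵀ * S).PosSemidef ∧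
    x = ∑ i ∈ Finset.range n, Real.log ((toEuclideanLin S).singularValues i)}

/-- the operational squeezing measure `G` -/
noncomputable def G {n : ℕ} (γ : Matrix (Idx n) (Idx n) ℝ) : ℝ := sInf (costs γ)

/-- the block-diagonal matrix `A ⊕ B` on `m + n` modes: the first `m` modes are those of `A`, the
last `n` modes are those of `B` -/
def directSum {m n : ℕ} (A : Matrix (Idx m) (Idx m) ℝ) (B : Matrix (Idx n) (Idx n) ℝ) :
    Matrix (Idx (m + n)) (Idx (m + n)) ℝ :=
  fun a b => Fin.addCases
    (fun i => Fin.addCases (fun j => A (i, a.2) (j, b.2)) (fun _ => 0) b.1)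
    (fun i => Fin.addCases (fun _ => 0) (fun j => B (i, a.2) (j, b.2)) b.1) a.1

/-- the index bijection -/
def idxEquiv (m n : ℕ) : Idx (m + n) ≃ Idx m ⊕ Idx n :=
  (Equiv.prodCongr finSumFinEquiv.symm (Equiv.refl (Fin 2))).trans
    (Equiv.sumProdDistrib (Fin m) (Fin n) (Fin 2))

theorem directSum_eq {m n : ℕ} (A : Matrix (Idx m) (Idx m) ℝ) (B : Matrix (Idx n) (Idx n) ℝ) :
    directSum A B = (fromBlocks A 0 0 B).submatrix (idxEquiv m n) (idxEquiv m n) := by
  ext ⟨i, s⟩ ⟨j, t⟩
  rw [submatrix_apply]
  induction i using Fin.addCases with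
  | left i =>
    induction j using Fin.addCases with
    | left j => simp [directSum, idxEquiv]
    | right j => simp [directSum, idxEquiv]
  | right i =>
    induction j using Fin.addCases with
    | left j => simp [directSum, idxEquiv]
    | right j => simp [directSum, idxEquiv]

theorem directSum_sigma (m n : ℕ) : directSum (sigma m) (sigma n) = sigma (m + n) := by
  ext ⟨i, s⟩ ⟨j, t⟩
  induction i using Fin.addCases with
  | left i =>
    induction j using Fin.addCases with
    | left j => simp [directSum, sigma]
    | right j =>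
      have : ¬ (Fin.castAdd n i = Fin.natAdd m j) := by
        intro h
        have := congrArg Fin.val h
        simp at this
        omega
      simp [directSum, sigma, this]
  | right i =>
    induction j using Fin.addCases with
    | left j =>
      have : ¬ (Fin.natAdd m i = Fin.castAdd n j) := by
        intro h
        have := congrArg Fin.val h
        simp at this
        omega
      simp [directSum, sigma, this]
    | right j => simp [directSum, sigma]

theorem sigma_form (n : ℕ) : Pool.Agent.Q168.SQ.Form (sigma n) := by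
  constructor
  · ext ⟨i, s⟩ ⟨j, t⟩
    simp only [transpose_apply, Matrix.neg_apply, sigma]
    by_cases h : i = j
    · subst h
      fin_cases s <;> fin_cases t <;> simp
    · rw [if_neg h, if_neg (Ne.symm h), neg_zero]
  · ext ⟨i, s⟩ ⟨j, t⟩
    rw [mul_apply, Fintype.sum_prod_type]
    simp only [sigma, ite_mul, zero_mul, mul_ite, mul_zero, Fin.sum_univ_two]
    by_cases h : i = j
    · subst h
      rw [Finset.sum_eq_single i]
      · fin_cases s <;> fin_cases t <;> simp
      · intro b _ hb
        simp [hb]
      · simp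
    · rw [Finset.sum_eq_zero]
      · simp [h]
      · intro b _
        by_cases hb : i = b
        · subst hb
          simp [h]
        · simp [hb]

/-- **Q1 of MP_18219f_mp: yes.**  `G (γ_A ⊕ γ_B) = G γ_A + G γ_B` for all covariance matrices
`γ_A`, `γ_B` on any numbers of modes.  For completeness the statement also records that the
block-diagonal matrix `γ_A ⊕ γ_B` is a covariance matrix (for `σ_(m+n) = σ_m ⊕ σ_n`) and that
`G γ` is the infimum of the set `costs γ` in the strict sense (greatest lower bound) for every
covariance matrix `γ`. -/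
theorem result :
    (∀ (m n : ℕ) (A : Matrix (Idx m) (Idx m) ℝ) (B : Matrix (Idx n) (Idx n) ℝ),
      IsCovariance A → IsCovariance B → G (directSum A B) = G A + G B) ∧
    (∀ (m n : ℕ), directSum (sigma m) (sigma n) = sigma (m + n)) ∧
    (∀ (m n : ℕ) (A : Matrix (Idx m) (Idx m) ℝ) (B : Matrix (Idx n) (Idx n) ℝ),
      IsCovariance A → IsCovariance B → IsCovariance (directSum A B)) ∧
    (∀ (n : ℕ) (γ : Matrix (Idx n) (Idx n) ℝ), IsCovariance γ → IsGLB (costs γ) (G γ)) := by
  have hcard : ∀ n, Fintype.card (Idx n) = n + n := by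
    intro n
    rw [Fintype.card_prod, Fintype.card_fin, Fintype.card_fin]
    ring
  refine ⟨?_, directSum_sigma, ?_, ?_⟩
  · intro m n A B hA hB
    refine Pool.Agent.Q168.SQ.additive (hcard m) (hcard n) ?_ (idxEquiv m n) (sigma_form m)
      (sigma_form n) hA hB ?_ ?_
    · rw [hcard]
    · rw [← directSum_eq, directSum_sigma]
    · rw [← directSum_eq]
  · intro m n A B hA hB
    have h := Pool.Agent.Q168.SQ.cov_submatrix (Pool.Agent.Q168.SQ.cov_block hA hB) (idxEquiv m n)
    rw [← directSum_eq, ← directSum_eq, directSum_sigma] at h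
    exact h
  · intro n γ h
    exact Pool.Agent.Q168.SQ.isGLB (hcard n) (sigma_form n) h

end Pool.Agent.Results.MP_18219f_mp.Additivity
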